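import Pool.Agent.Q211.CRW.Final

open MeasureTheory ProbabilityTheory Filter Finset
open scoped unitInterval ENNReal

namespace Pool.Agent.Results.MP_4881ff_pr.DimensionAtLeastFour

open Pool.Agent.Q211.CRW

/-- In every dimension at least four every conservative random walk is strongly transient; so
strong transience is monotone there. -/
theorem result (d : ℕ) [NeZero d] (hd : 4 ≤ d) :
    (∀ p : ℕ → I, StronglyTransient d p) ∧
    ∀ p p' : ℕ → I, (∀ n, p' (n + 1) ≤ p (n + 1)) → StronglyTransient d p →
      StronglyTransient d p' :=
  ⟨fun p => always hd p, fun _ p' _ _ => always hd p'⟩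

end Pool.Agent.Results.MP_4881ff_pr.DimensionAtLeastFour
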