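import Pool.Agent.Q211.CRW.Main

open MeasureTheory ProbabilityTheory Filter Finset
open scoped unitInterval ENNReal

namespace Pool.Agent.Results.MP_4881ff_pr.DimensionOne

open Pool.Agent.Q211.CRW

/-- Dimension one: the walk is strongly transient exactly when the refresh probabilities are
summable, and so strong transience is monotone. -/
theorem result :
    (∀ p : ℕ → I, StronglyTransient 1 p ↔ Summable fun n => (p n : ℝ)) ∧
    ∀ p p' : ℕ → I, (∀ n, p' (n + 1) ≤ p (n + 1)) → StronglyTransient 1 p →
      StronglyTransient 1 p' := by
  have key : ∀ p : ℕ → I, (∑' n, ENNReal.ofReal (p n) ≠ ∞) ↔ Summable fun n => (p n : ℝ) := by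
    intro p
    constructor
    · intro h
      have h1 := ENNReal.summable_toReal h
      refine h1.congr fun n => ?_
      exact ENNReal.toReal_ofReal (p n).2.1
    · intro h
      exact h.tsum_ofReal_ne_top
  have h1 : ∀ p : ℕ → I, StronglyTransient 1 p ↔ Summable fun n => (p n : ℝ) := by
    intro p
    rw [← key]
    constructor
    · intro h hc
      exact not_transient p hc h
    · exact transient p
  refine ⟨h1, fun p p' hle h => ?_⟩
  rw [h1] at h ⊢
  rw [← summable_nat_add_iff 1] at h ⊢
  exact Summable.of_nonneg_of_le (fun n => (p' (n + 1)).2.1) (fun n => hle n) h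

end Pool.Agent.Results.MP_4881ff_pr.DimensionOne
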